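import Pool.Agent.Work.MP_f3e7a9_wc.Assembly
import Pool.Agent.Work.MP_f3e7a9_wc.B_ENU
import Pool.Agent.Work.MP_f3e7a9_wc.B_MNA2

/-!
Collectionwise Hausdorff reflection at a weakly compact cardinal for points of small tightness and
for `P`-points of order `κ`.
-/

set_option autoImplicit false

namespace Pool.Agent.Work.MP_f3e7a9_tp

open Set Cardinal Topology
open Pool.Agent.Work.MP_f3e7a9_gt (exists_bound card_Iic_lt)
open Pool.Agent.Work.MP_f3e7a9_wc

/-- The tightness of `X` at `x` is less than `κ` (in the weak sense): if `x` is in the closure of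
`Y` then `x` is in the closure of a subset of `Y` of fewer than `κ` points. -/
def TightLt (κ : Cardinal.{0}) {X : Type} [TopologicalSpace X] (x : X) : Prop :=
  ∀ Y : Set X, x ∈ closure Y → ∃ Z ⊆ Y, #↥Z < κ ∧ x ∈ closure Z

/-- `x` is a `P_κ`-point: the intersection of fewer than `κ` neighbourhoods of `x` is a
neighbourhood of `x`. -/
def PPt (κ : Cardinal.{0}) {X : Type} [TopologicalSpace X] (x : X) : Prop :=
  ∀ N : Set (Set X), #↥N < κ → (∀ s ∈ N, s ∈ 𝓝 x) → ⋂₀ N ∈ 𝓝 x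

theorem ord_pos_of {κ : Cardinal.{0}} (h0 : ℵ₀ < κ) : 0 < κ.ord := by
  rw [pos_iff_ne_zero]
  intro h
  rw [Cardinal.ord_eq_zero] at h
  rw [h] at h0
  exact not_lt_bot h0

/-- Points of small tightness, for an enumerated set. -/
theorem coreT (κ : Cardinal.{0}) (h0 : ℵ₀ < κ) (hr : κ.IsRegular) (hW : WCpt κ) (X : Type)
    [TopologicalSpace X] (d : Ordinal.{0} → X) (u : Ordinal.{0} → Ordinal.{0} → Set X)
    (hb : ∀ β < κ.ord, ∀ V : Set X, IsOpen V → d β ∈ V → ∃ ξ < κ.ord, u β ξ ⊆ V)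
    (hsep : ∀ ε < κ.ord, ∃ W : Ordinal.{0} → Set X, (∀ β < ε, IsOpen (W β) ∧ d β ∈ W β) ∧
      ∀ β < ε, ∀ γ < ε, β ≠ γ → Disjoint (W β) (W γ))
    (ht : ∀ β < κ.ord, TightLt κ (d β)) :
    ∃ f : Ordinal.{0} → Ordinal.{0}, (∀ β < κ.ord, f β < κ.ord) ∧
      ∀ β < κ.ord, ∀ γ < κ.ord, β ≠ γ → Disjoint (u β (f β)) (u γ (f γ)) := by
  classical
  have hex : ∀ ε : Ordinal.{0}, ∃ W : Ordinal.{0} → Set X, ε < κ.ord →
      ((∀ β < ε, IsOpen (W β) ∧ d β ∈ W β) ∧
        ∀ β < ε, ∀ γ < ε, β ≠ γ → Disjoint (W β) (W γ)) := by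
    intro ε
    by_cases hε : ε < κ.ord
    · obtain ⟨W, h⟩ := hsep ε hε
      exact ⟨W, fun _ => h⟩
    · exact ⟨fun _ => ∅, fun h => absurd h hε⟩
  choose W hWs using hex
  -- representatives
  have hrep : ∀ l : List Ordinal.{0}, ∃ x : X, (u (l.getD 0 0) (l.getD 1 0) ∩
      u (l.getD 2 0) (l.getD 3 0)).Nonempty →
      x ∈ u (l.getD 0 0) (l.getD 1 0) ∩ u (l.getD 2 0) (l.getD 3 0) := by
    intro l
    by_cases h : (u (l.getD 0 0) (l.getD 1 0) ∩ u (l.getD 2 0) (l.getD 3 0)).Nonempty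
    · exact ⟨h.choose, fun _ => h.choose_spec⟩
    · exact ⟨d 0, fun h' => absurd h' h⟩
  choose r hrr using hrep
  obtain ⟨dec, hdec⟩ := p_ENU κ h0
  obtain ⟨T, hT1, hT2, hT3⟩ := hW fun a => {δ | r (dec a).1 ∈ W δ (dec a).2}
  let R : Set X := {x | ∃ l : List Ordinal.{0}, (∀ a ∈ l, a < κ.ord) ∧ x = r l}
  let V : Ordinal.{0} → Set X := fun α =>
    {x | x ∈ R ∧ ∃ ρ < κ.ord, ∀ δ ∈ T, ρ ≤ δ → x ∈ W δ α}
  have hdich : ∀ x ∈ R, ∀ α < κ.ord, x ∉ V α → ∃ ρ < κ.ord, ∀ δ ∈ T, ρ ≤ δ → x ∉ W δ α := by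
    rintro x ⟨l, hl, rfl⟩ α hα hx
    obtain ⟨a, ha, hda⟩ := hdec l α hl hα
    obtain ⟨ρ, hρ, h | h⟩ := hT3 a ha
    · exfalso
      apply hx
      refine ⟨⟨l, hl, rfl⟩, ρ, hρ, fun δ hδ hρδ => ?_⟩
      have := h δ hδ hρδ
      rw [mem_ofPred_eq, hda] at this
      exact this
    · refine ⟨ρ, hρ, fun δ hδ hρδ => ?_⟩
      have := h δ hδ hρδ
      rw [mem_ofPred_eq, hda] at this
      exact this
  have hlim : ∀ a < κ.ord, Order.succ a < κ.ord := fun a ha =>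
    (isSuccLimit_ord hr.aleph0_le).succ_lt ha
  have hVdis : ∀ α < κ.ord, ∀ γ < κ.ord, α ≠ γ → ∀ x, x ∈ V α → x ∉ V γ := by
    rintro α hα γ hγ hne x ⟨-, ρ, hρ, h1⟩ ⟨-, ρ', hρ', h2⟩
    obtain ⟨δ, hδ, hle⟩ := hT2 (max (max ρ ρ') (max (Order.succ α) (Order.succ γ)))
      (max_lt (max_lt hρ hρ') (max_lt (hlim α hα) (hlim γ hγ)))
    have hδκ : δ < κ.ord := hT1 hδ
    have h3 := h1 δ hδ ((le_max_left _ _).trans ((le_max_left _ _).trans hle))
    have h4 := h2 δ hδ ((le_max_right _ _).trans ((le_max_left _ _).trans hle))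
    have h5 : α < δ := (Order.lt_succ α).trans_le
      ((le_max_left _ _).trans ((le_max_right _ _).trans hle))
    have h6 : γ < δ := (Order.lt_succ γ).trans_le
      ((le_max_right _ _).trans ((le_max_right _ _).trans hle))
    exact disjoint_left.1 ((hWs δ hδκ).2 α h5 γ h6 hne) h3 h4
  have hnb : ∀ α < κ.ord, d α ∉ closure (R \ V α) := by
    intro α hα hcl
    obtain ⟨Z, hZ, hZc, hZcl⟩ := ht α hα _ hcl
    have hz : ∀ z : ULift.{1} Z, ∃ ρ < κ.ord, ∀ δ ∈ T, ρ ≤ δ → (z.down : X) ∉ W δ α :=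
      fun z => hdich z.down (hZ z.down.2).1 α hα (hZ z.down.2).2
    choose ρ hρ hρ2 using hz
    obtain ⟨b, hb1, hb2⟩ := exists_bound hr (ι := ULift.{1} Z)
      (by rw [Cardinal.mk_uLift]; exact Cardinal.lift_lt.2 hZc) ρ hρ
    obtain ⟨δ, hδ, hle⟩ := hT2 (max b (Order.succ α)) (max_lt hb1 (hlim α hα))
    have hδκ : δ < κ.ord := hT1 hδ
    have h5 : α < δ := (Order.lt_succ α).trans_le ((le_max_right _ _).trans hle)
    obtain ⟨z, hz1, hz2⟩ := mem_closure_iff.1 hZcl (W δ α) ((hWs δ hδκ).1 α h5).1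
      ((hWs δ hδκ).1 α h5).2
    exact hρ2 ⟨⟨z, hz2⟩⟩ δ hδ ((hb2 ⟨⟨z, hz2⟩⟩).le.trans ((le_max_left _ _).trans hle)) hz1
  have hf : ∀ α : Ordinal.{0}, ∃ i : Ordinal.{0}, α < κ.ord →
      (i < κ.ord ∧ ∀ x ∈ u α i, x ∈ R → x ∈ V α) := by
    intro α
    by_cases hα : α < κ.ord
    · obtain ⟨i, hi, h⟩ := hb α hα (closure (R \ V α))ᶜ isClosed_closure.isOpen_compl (hnb α hα)
      refine ⟨i, fun _ => ⟨hi, fun x hx hxR => ?_⟩⟩
      by_contra hxV
      exact h hx (subset_closure ⟨hxR, hxV⟩)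
    · exact ⟨0, fun h => absurd h hα⟩
  choose f hf' using hf
  refine ⟨f, fun β hβ => (hf' β hβ).1, fun β hβ γ hγ hne => ?_⟩
  rw [Set.disjoint_iff_inter_eq_empty]
  by_contra hne'
  have hne2 : (u β (f β) ∩ u γ (f γ)).Nonempty := nonempty_iff_ne_empty.2 hne'
  have hl : ∀ a ∈ [β, f β, γ, f γ], a < κ.ord := by
    intro a ha
    simp only [List.mem_cons, List.not_mem_nil, or_false] at ha
    rcases ha with rfl | rfl | rfl | rfl
    · exact hβ
    · exact (hf' β hβ).1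
    · exact hγ
    · exact (hf' γ hγ).1
  have hx := hrr [β, f β, γ, f γ] hne2
  have hxR : r [β, f β, γ, f γ] ∈ R := ⟨_, hl, rfl⟩
  exact hVdis β hβ γ hγ hne _ ((hf' β hβ).2 _ hx.1 hxR) ((hf' γ hγ).2 _ hx.2 hxR)

/-- Points of small tightness. -/
theorem sepT (κ : Cardinal.{0}) (h0 : ℵ₀ < κ) (hr : κ.IsRegular) (hW : WCpt κ) (X : Type)
    [TopologicalSpace X] (D : Set X) (hle : #↥D ≤ κ)
    (hchar : ∀ x ∈ D, ∃ N : Set (Set X), #↥N ≤ κ ∧ (nhds x).HasBasis (fun s => s ∈ N) id)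
    (hsep : ∀ E ⊆ D, #↥E < κ → Sepd E) (ht : ∀ x ∈ D, TightLt κ x) : Sepd D := by
  classical
  rcases hle.lt_or_eq with hlt | heq
  · exact hsep D subset_rfl hlt
  rcases isEmpty_or_nonempty X with hX | hX
  · exact ⟨fun _ => ∅, fun x => (hX.false x).elim, fun x => (hX.false x).elim⟩
  obtain ⟨d, hd1, hd2⟩ := MNA2_enum heq
  have hdD : ∀ β < κ.ord, d β ∈ D := fun β hβ => hd2 ▸ mem_image_of_mem d hβ
  have hex : ∀ β : Ordinal.{0}, ∃ u : Ordinal.{0} → Set X, β < κ.ord →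
      ((∀ i, IsOpen (u i) ∧ d β ∈ u i) ∧
        ∀ V : Set X, IsOpen V → d β ∈ V → ∃ i < κ.ord, u i ⊆ V) := by
    intro β
    by_cases hβ : β < κ.ord
    · obtain ⟨u, h⟩ := MNA2_base (d β) (hchar (d β) (hdD β hβ))
      exact ⟨u, fun _ => h⟩
    · exact ⟨fun _ => ∅, fun h => absurd h hβ⟩
  choose u hu using hex
  obtain ⟨f, hf1, hf2⟩ := coreT κ h0 hr hW X d u
    (fun β hβ => (hu β hβ).2) (by
      intro ε hε
      have hE : d '' Iio ε ⊆ D := by
        rintro _ ⟨β, hβ, rfl⟩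
        exact hdD β (lt_trans hβ hε)
      have hc : #↥(d '' Iio ε) < κ := by
        have h1 : Cardinal.lift.{1} #↥(d '' Iio ε) ≤ Cardinal.lift.{0} #↥(Iio ε) :=
          mk_image_le_lift
        rw [Cardinal.lift_uzero, Cardinal.mk_Iio_ordinal, Cardinal.lift_le] at h1
        exact h1.trans_lt (lt_ord.1 hε)
      obtain ⟨W, hW1, hW2⟩ := hsep _ hE hc
      refine ⟨fun β => W (d β), fun β hβ => hW1 _ (mem_image_of_mem d hβ), ?_⟩
      intro β hβ γ hγ hne
      exact hW2 (mem_image_of_mem d hβ) (mem_image_of_mem d hγ) fun h =>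
        hne (hd1 (lt_trans hβ hε) (lt_trans hγ hε) h))
    (fun β hβ => ht _ (hdD β hβ))
  have hidx : ∀ x : X, ∃ β : Ordinal.{0}, x ∈ D → (β < κ.ord ∧ d β = x) := by
    intro x
    by_cases hx : x ∈ D
    · rw [← hd2] at hx
      obtain ⟨β, hβ, h⟩ := hx
      exact ⟨β, fun _ => ⟨hβ, h⟩⟩
    · exact ⟨0, fun h => absurd h hx⟩
  choose idx hi using hidx
  refine ⟨fun x => u (idx x) (f (idx x)), fun x hx => ?_, fun x hx y hy hne => ?_⟩
  · obtain ⟨h1, h2⟩ := hi x hx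
    have := (hu (idx x) h1).1 (f (idx x))
    rw [h2] at this
    exact this
  · obtain ⟨h1, h2⟩ := hi x hx
    obtain ⟨h3, h4⟩ := hi y hy
    exact hf2 _ h1 _ h3 fun h => hne (by rw [← h2, ← h4, h])

/-- Subsets of closed discrete sets are closed. -/
theorem closed_sub {X : Type} [TopologicalSpace X] {D : Set X} (hD : IsClosed D)
    (hdis : DiscreteTopology ↥D) {S : Set X} (hS : S ⊆ D) : IsClosed S := by
  have h1 : IsClosed ((Subtype.val : ↥D → X) ⁻¹' S) := isClosed_discrete _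
  have h2 := hD.isClosedEmbedding_subtypeVal.isClosedMap _ h1
  rwa [Subtype.image_preimage_coe, inter_eq_self_of_subset_right hS] at h2

theorem disc_sub {X : Type} [TopologicalSpace X] {D : Set X} (hdis : DiscreteTopology ↥D)
    {S : Set X} (hS : S ⊆ D) : DiscreteTopology ↥S :=
  DiscreteTopology.of_subset hdis hS

/-- `P_κ`-points. -/
theorem sepP (κ : Cardinal.{0}) (X : Type) [TopologicalSpace X] [T4Space X] (D : Set X)
    (hD : IsClosed D) (hdis : DiscreteTopology ↥D) (hle : #↥D ≤ κ) (hp : ∀ x ∈ D, PPt κ x) :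
    Sepd D := by
  classical
  have hle' : Cardinal.lift.{1} #↥D ≤ #(Iio κ.ord) := by
    rw [Cardinal.mk_Iio_ordinal, card_ord, Cardinal.lift_le]
    exact hle
  obtain ⟨e⟩ := Cardinal.lift_mk_le'.1 (by simpa using hle' : Cardinal.lift.{1} #↥D ≤
    Cardinal.lift.{0} #(Iio κ.ord))
  have hN : ∀ x : X, ∃ N : Set X, x ∈ D → (IsOpen N ∧ x ∈ N ∧ ∀ y ∈ D, y ≠ x → y ∉ closure N) := by
    intro x
    by_cases hx : x ∈ D
    · have hcl : IsClosed (D \ {x}) := closed_sub hD hdis sdiff_subset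
      obtain ⟨t, ht1, ht2, ht3⟩ := exists_mem_nhds_isClosed_subset
        (hcl.isOpen_compl.mem_nhds (show x ∈ (D \ {x})ᶜ by simp))
      refine ⟨interior t, fun _ => ⟨isOpen_interior, mem_interior_iff_mem_nhds.2 ht1, ?_⟩⟩
      intro y hy hne hcy
      exact ht3 (closure_minimal interior_subset ht2 hcy) ⟨hy, hne⟩
    · exact ⟨∅, fun h => absurd h hx⟩
  choose N hN' using hN
  let S : ↥D → Set (Set X) := fun x =>
    (fun y : ↥D => (closure (N y))ᶜ) '' {y | (e y : Ordinal.{0}) < e x}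
  have hS : ∀ x : ↥D, #↥(S x) < κ := by
    intro x
    refine mk_image_le.trans_lt ?_
    have h1 : Cardinal.lift.{1} #↥{y : ↥D | (e y : Ordinal.{0}) < e x} ≤
        Cardinal.lift.{0} #↥(Iio (e x : Ordinal.{0})) := by
      refine Cardinal.mk_le_of_injective (f := fun z => ULift.up ⟨(e z.down.1 : Ordinal.{0}), z.down.2⟩) ?_
      intro a b h
      have h2 : (e a.down.1 : Ordinal.{0}) = e b.down.1 := by
        have := congrArg (fun t : ULift ↥(Iio (e x : Ordinal.{0})) => (t.down : Ordinal.{0})) h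
        exact this
      have h3 := e.injective (Subtype.ext h2)
      exact ULift.ext _ _ (Subtype.ext h3)
    rw [Cardinal.lift_uzero, Cardinal.mk_Iio_ordinal, Cardinal.lift_le] at h1
    exact h1.trans_lt (lt_ord.1 (e x).2)
  let O : X → Set X := fun x => if h : x ∈ D then interior (N x ∩ ⋂₀ (S ⟨x, h⟩)) else ∅
  have hO : ∀ x (h : x ∈ D), O x = interior (N x ∩ ⋂₀ (S ⟨x, h⟩)) := fun x h => dif_pos h
  refine ⟨O, fun x hx => ?_, ?_⟩
  · rw [hO x hx]
    refine ⟨isOpen_interior, mem_interior_iff_mem_nhds.2 (Filter.inter_mem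
      ((hN' x hx).1.mem_nhds (hN' x hx).2.1) (hp x hx _ (hS _) ?_))⟩
    rintro _ ⟨y, hy, rfl⟩
    refine isClosed_closure.isOpen_compl.mem_nhds ?_
    refine (hN' y y.2).2.2 x hx ?_
    rintro rfl
    exact lt_irrefl (e y : Ordinal.{0}) hy
  · have key : ∀ x (hx : x ∈ D) y (hy : y ∈ D), (e ⟨x, hx⟩ : Ordinal.{0}) < e ⟨y, hy⟩ →
        Disjoint (O x) (O y) := by
      intro x hx y hy hlt
      rw [hO x hx, hO y hy, disjoint_left]
      intro p hp1 hp2
      have h1 : p ∈ N x := (interior_subset hp1).1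
      have h2 : p ∈ ⋂₀ (S ⟨y, hy⟩) := (interior_subset hp2).2
      exact h2 _ ⟨⟨x, hx⟩, hlt, rfl⟩ (subset_closure h1)
    intro x hx y hy hne
    rcases lt_trichotomy (e ⟨x, hx⟩ : Ordinal.{0}) (e ⟨y, hy⟩) with h | h | h
    · exact key x hx y hy h
    · exact absurd (congrArg Subtype.val (e.injective (Subtype.ext h))) hne
    · exact (key y hy x hx h).symm

/-- Unions of two separated sets. -/
theorem sep_union {X : Type} [TopologicalSpace X] [T4Space X] {A B : Set X}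
    (hD : IsClosed (A ∪ B)) (hdis : DiscreteTopology ↥(A ∪ B)) (hA : Sepd A) (hB : Sepd B) :
    Sepd (A ∪ B) := by
  classical
  obtain ⟨W, hW1, hW2⟩ := hA
  obtain ⟨W', hW1', hW2'⟩ := hB
  have hAc : IsClosed A := closed_sub hD hdis subset_union_left
  have hBc : IsClosed (B \ A) := closed_sub hD hdis (sdiff_subset.trans subset_union_right)
  obtain ⟨U, V, hU, hV, hAU, hBV, hUV⟩ := normal_separation hAc hBc
    (disjoint_left.2 fun x hx hx' => hx'.2 hx)
  refine ⟨fun x => if x ∈ A then W x ∩ U else W' x ∩ V, fun x hx => ?_, fun x hx y hy hne => ?_⟩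
  · by_cases hxA : x ∈ A
    · simp only [if_pos hxA]
      exact ⟨(hW1 x hxA).1.inter hU, (hW1 x hxA).2, hAU hxA⟩
    · have hxB : x ∈ B := hx.resolve_left hxA
      simp only [if_neg hxA]
      exact ⟨(hW1' x hxB).1.inter hV, (hW1' x hxB).2, hBV ⟨hxB, hxA⟩⟩
  · show Disjoint (if x ∈ A then W x ∩ U else W' x ∩ V) (if y ∈ A then W y ∩ U else W' y ∩ V)
    by_cases hxA : x ∈ A <;> by_cases hyA : y ∈ A
    · rw [if_pos hxA, if_pos hyA]
      exact (hW2 hxA hyA hne).mono inter_subset_left inter_subset_left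
    · rw [if_pos hxA, if_neg hyA]
      exact hUV.mono inter_subset_right inter_subset_right
    · rw [if_neg hxA, if_pos hyA]
      exact hUV.symm.mono inter_subset_right inter_subset_right
    · rw [if_neg hxA, if_neg hyA]
      exact (hW2' (hx.resolve_left hxA) (hy.resolve_left hyA) hne).mono inter_subset_left
        inter_subset_left

end Pool.Agent.Work.MP_f3e7a9_tp
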