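import Pool.Agent.Work.MP_f3e7a9_tp.Core

/-!
Closed discrete sets of points of small tightness and `P_κ`-points at a weakly compact cardinal.
-/

set_option autoImplicit false

namespace Pool.Agent.Work.MP_f3e7a9_tp

open Set Cardinal Topology
open Pool.Agent.Work.MP_f3e7a9_wc

theorem main (κ : Cardinal.{0}) (h0 : ℵ₀ < κ) (hr : κ.IsRegular) (hW : WCpt κ) (X : Type)
    [TopologicalSpace X] [T4Space X] (hCW : CW κ X) (D : Set X) (hD : IsClosed D)
    (hdis : DiscreteTopology ↥D) (hle : #↥D ≤ κ)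
    (hchar : ∀ x ∈ D, ∃ N : Set (Set X), #↥N ≤ κ ∧ (nhds x).HasBasis (fun s => s ∈ N) id)
    (h : ∀ x ∈ D, TightLt κ x ∨ PPt κ x) : Sepd D := by
  classical
  have hA : ({x | x ∈ D ∧ TightLt κ x} : Set X) ⊆ D := fun x hx => hx.1
  have hB : ({x | x ∈ D ∧ PPt κ x} : Set X) ⊆ D := fun x hx => hx.1
  have hAB : ({x | x ∈ D ∧ TightLt κ x} : Set X) ∪ {x | x ∈ D ∧ PPt κ x} = D := by
    apply Subset.antisymm (union_subset hA hB)
    intro x hx
    rcases h x hx with h1 | h1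
    · exact Or.inl ⟨hx, h1⟩
    · exact Or.inr ⟨hx, h1⟩
  have hsA : Sepd ({x | x ∈ D ∧ TightLt κ x} : Set X) := by
    refine sepT κ h0 hr hW X _ ((mk_le_mk_of_subset hA).trans hle)
      (fun x hx => hchar x hx.1) (fun E hE hEc => ?_) (fun x hx => hx.2)
    exact hCW E (closed_sub hD hdis (hE.trans hA)) (disc_sub hdis (hE.trans hA)) hEc
  have hsB : Sepd ({x | x ∈ D ∧ PPt κ x} : Set X) :=
    sepP κ X _ (closed_sub hD hdis hB) (disc_sub hdis hB) ((mk_le_mk_of_subset hB).trans hle)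
      (fun x hx => hx.2)
  have := sep_union (A := {x | x ∈ D ∧ TightLt κ x}) (B := {x | x ∈ D ∧ PPt κ x})
    (by rw [hAB]; exact hD) (by rw [hAB]; exact hdis) hsA hsB
  rwa [hAB] at this

end Pool.Agent.Work.MP_f3e7a9_tp
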